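import Mathlib

/-!
MP_be01c1_co, Q1: a counterexample. For `q = 2`, `n = 8`, `d = 5`, `t = 0`, the least eigenvalue of
the Gilbert graph is `-6`; it is attained by `v = (1,1,0,0,0,0,0,0)` and by
`v' = (1,1,1,0,0,0,0,0)`, and the two hyperplane sections are not isomorphic: every vertex lies in
`4116` ordered triangles of the first and in `3996` of the second.
-/

namespace Pool.Agent.Results.MP_be01c1_co.SectionsNotIsomorphic

open Finset

/-- Hamming weight. -/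
def wt {q n : ℕ} (u : Fin n → ZMod q) : ℕ := (univ.filter fun i => u i ≠ 0).card

/-- The standard bilinear form. -/
def dot {q n : ℕ} (u v : Fin n → ZMod q) : ZMod q := ∑ i, u i * v i

/-- The Gilbert graph `G_0`. -/
def gilbert (q n d : ℕ) : SimpleGraph (Fin n → ZMod q) where
  Adj u u' := 1 ≤ wt (u - u') ∧ wt (u - u') ≤ d - 1
  symm := ⟨fun u u' h => by
    have : wt (u' - u) = wt (u - u') := by
      unfold wt
      congr 1
      ext i
      simp only [Finset.mem_filter, Finset.mem_univ, true_and, Pi.sub_apply, ne_eq, sub_eq_zero]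
      exact not_congr eq_comm
    rwa [this]⟩
  loopless := ⟨fun u h => by simp [wt] at h⟩

/-- The eigenvalue `λ_V(v)`, the sum of `z^⟨u,v⟩` over the `u ∈ V` of weight between `1` and
`d - 1`, with `z = exp(2πi/q)`. -/
noncomputable def lam {q n : ℕ} [NeZero q] (d : ℕ) (V : Set (Fin n → ZMod q))
    (v : Fin n → ZMod q) : ℂ :=
  open Classical in
  ∑ u : Fin n → ZMod q, if u ∈ V ∧ 1 ≤ wt u ∧ wt u ≤ d - 1 then
    Complex.exp (2 * Real.pi * Complex.I / q) ^ (dot u v).val else 0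

/-- `μ` is the least eigenvalue of `G[V]`. -/
def IsMinEig {q n : ℕ} [NeZero q] (d : ℕ) (V : Set (Fin n → ZMod q)) (μ : ℝ) : Prop :=
  IsLeast {x : ℝ | ∃ w : Fin n → ZMod q, lam d V w = (x : ℂ)} μ

/-- `v` gives the least eigenvalue of `G[V]`. -/
def GivesMin {q n : ℕ} [NeZero q] (d : ℕ) (V : Set (Fin n → ZMod q)) (v : Fin n → ZMod q) : Prop :=
  ∃ μ : ℝ, IsMinEig d V μ ∧ lam d V v = (μ : ℂ)

/-- The integer by which vectors are ordered, `∑ v_i q^(n-i)` (for `i = 1..n`). -/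
def code {q n : ℕ} (v : Fin n → ZMod q) : ℕ := ∑ i : Fin n, (v i).val * q ^ (n - 1 - (i : ℕ))

/-- The smallest vector giving the least eigenvalue of `G[V]`. -/
noncomputable def firstMin {q n : ℕ} [NeZero q] (d : ℕ) (V : Set (Fin n → ZMod q)) :
    Fin n → ZMod q :=
  open Classical in
  if h : ∃ v, GivesMin d V v ∧ ∀ w, GivesMin d V w → code v ≤ code w then h.choose else 0

/-- The subspaces `V_t` of the recursion. -/
noncomputable def space (q n d : ℕ) [NeZero q] : ℕ → Set (Fin n → ZMod q)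
  | 0 => Set.univ
  | t + 1 => {u ∈ space q n d t | dot u (firstMin d (space q n d t)) = 0}

/-- The section `H_t(v)`. -/
def section' (q n d : ℕ) [NeZero q] (t : ℕ) (v : Fin n → ZMod q) : Set (Fin n → ZMod q) :=
  {u ∈ space q n d t | dot u v = 0}

/-- Q1: the posed statement. -/
def Question : Prop :=
  ∀ (q : ℕ) [NeZero q], q.Prime → ∀ n d : ℕ, 1 ≤ n → 2 ≤ d → ∀ t : ℕ,
    (∃ a b, ((gilbert q n d).induce (space q n d t)).Adj a b) →
    ∀ v v' : Fin n → ZMod q, GivesMin d (space q n d t) v → GivesMin d (space q n d t) v' →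
      Nonempty ((gilbert q n d).induce (section' q n d t v) ≃g
        (gilbert q n d).induce (section' q n d t v'))

/-! ### Coding of vectors by numbers below 256 -/

/-- The vector with the binary digits of `k`. -/
def vec (k : ℕ) : Fin 8 → ZMod 2 := fun i => ((k / 2 ^ (i : ℕ) : ℕ) : ZMod 2)

/-- binary digit -/
def bt (k i : ℕ) : ℕ := k / 2 ^ i % 2

/-- weight of the difference of two coded vectors -/
def wd (a b : ℕ) : ℕ :=
  (bt a 0 + bt b 0) % 2 + (bt a 1 + bt b 1) % 2 + (bt a 2 + bt b 2) % 2 + (bt a 3 + bt b 3) % 2 +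
  (bt a 4 + bt b 4) % 2 + (bt a 5 + bt b 5) % 2 + (bt a 6 + bt b 6) % 2 + (bt a 7 + bt b 7) % 2

/-- the parity of the bilinear form -/
def dp (a b : ℕ) : ℕ :=
  (bt a 0 * bt b 0 + bt a 1 * bt b 1 + bt a 2 * bt b 2 + bt a 3 * bt b 3 +
  bt a 4 * bt b 4 + bt a 5 * bt b 5 + bt a 6 * bt b 6 + bt a 7 * bt b 7) % 2

lemma vec_apply (k : ℕ) (i : Fin 8) : vec k i = ((bt k i : ℕ) : ZMod 2) := by
  unfold vec bt
  rw [ZMod.natCast_mod]

lemma ne_iff (x y : ℕ) : ((x : ZMod 2) - (y : ZMod 2) ≠ 0) ↔ (x + y) % 2 = 1 := by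
  have h : (x : ZMod 2) - (y : ZMod 2) = ((x + y : ℕ) : ZMod 2) := by
    push_cast
    have : (-(y : ZMod 2)) = (y : ZMod 2) := ZMod.neg_eq_self_mod_two _
    rw [sub_eq_add_neg, this]
  rw [h, ne_eq, ZMod.natCast_eq_zero_iff]
  omega

lemma wt_vec_sub (a b : ℕ) : wt (vec a - vec b) = wd a b := by
  unfold wt
  rw [Finset.card_filter]
  have h : ∀ i : Fin 8, (if (vec a - vec b) i ≠ 0 then 1 else 0) = (bt a i + bt b i) % 2 := by
    intro i
    rw [Pi.sub_apply, vec_apply, vec_apply]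
    by_cases h : (bt a i + bt b i) % 2 = 1
    · rw [if_pos ((ne_iff _ _).2 h), h]
    · rw [if_neg (fun h' => h ((ne_iff _ _).1 h'))]
      omega
  rw [Finset.sum_congr rfl (fun i _ => h i)]
  simp only [Fin.sum_univ_succ]
  simp [wd]
  ring

lemma dot_vec (a b : ℕ) : (dot (vec a) (vec b)).val = dp a b := by
  unfold dot dp
  have h : ∀ i : Fin 8, vec a i * vec b i = ((bt a i * bt b i : ℕ) : ZMod 2) := by
    intro i
    rw [vec_apply, vec_apply]
    push_cast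
    rfl
  rw [Finset.sum_congr rfl (fun i _ => h i), ← Nat.cast_sum, ZMod.val_natCast]
  congr 1
  simp only [Fin.sum_univ_succ]
  simp
  ring

lemma wd_zero : ∀ a < 256, ∀ b < 256, wd a b = 0 → a = b := by decide +kernel

lemma vec_bij : Function.Bijective (fun k : Fin 256 => vec k) := by
  rw [Fintype.bijective_iff_injective_and_card]
  refine ⟨?_, by simp⟩
  intro a b h
  have h2 : wt (vec (a : ℕ) - vec (b : ℕ)) = 0 := by
    have : vec (a : ℕ) = vec (b : ℕ) := h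
    rw [this, sub_self]
    simp [wt]
  rw [wt_vec_sub] at h2
  exact Fin.ext (wd_zero a a.2 b b.2 h2)

/-- The coding as an equivalence. -/
noncomputable def ev : Fin 256 ≃ (Fin 8 → ZMod 2) := Equiv.ofBijective _ vec_bij

lemma ev_apply (k : Fin 256) : ev k = vec k := rfl

/-! ### Eigenvalues -/

/-- number of weight-1-to-4 vectors orthogonal to the coded vector `w` -/
def cntP (w : ℕ) : ℕ → ℕ
  | 0 => 0
  | k + 1 => cntP w k + (if (1 ≤ wd k 0 ∧ wd k 0 ≤ 4) ∧ dp k w = 0 then 1 else 0)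

/-- number of weight-1-to-4 vectors -/
def cntS : ℕ → ℕ
  | 0 => 0
  | k + 1 => cntS k + (if (1 ≤ wd k 0 ∧ wd k 0 ≤ 4) then 1 else 0)

lemma cntP_eq (w k : ℕ) : cntP w k =
    ∑ i ∈ range k, (if (1 ≤ wd i 0 ∧ wd i 0 ≤ 4) ∧ dp i w = 0 then 1 else 0) := by
  induction k with
  | zero => rfl
  | succ k ih => rw [cntP, Finset.sum_range_succ, ih]

lemma cntS_eq (k : ℕ) : cntS k =
    ∑ i ∈ range k, (if (1 ≤ wd i 0 ∧ wd i 0 ≤ 4) then 1 else 0) := by
  induction k with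
  | zero => rfl
  | succ k ih => rw [cntS, Finset.sum_range_succ, ih]

lemma cntS_val : cntS 256 = 162 := by decide +kernel

lemma cntP_ge : ∀ w < 256, 78 ≤ cntP w 256 := by decide +kernel

lemma cntP_v : cntP 3 256 = 78 := by decide +kernel

lemma cntP_v' : cntP 7 256 = 78 := by decide +kernel

lemma dp_le (a b : ℕ) : dp a b < 2 := Nat.mod_lt _ (by norm_num)

lemma vec_zero : vec 0 = 0 := by
  funext i
  simp [vec]

lemma lam_eq (w : Fin 256) :
    lam 5 (Set.univ : Set (Fin 8 → ZMod 2)) (vec w) = (((2 * (cntP w 256 : ℝ) - 162 : ℝ)) : ℂ) := by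
  classical
  unfold lam
  have hz : Complex.exp (2 * Real.pi * Complex.I / ((2 : ℕ) : ℂ)) = -1 := by
    have : (2 * Real.pi * Complex.I / ((2 : ℕ) : ℂ)) = Real.pi * Complex.I := by
      push_cast; ring
    rw [this, Complex.exp_pi_mul_I]
  rw [hz, ← Equiv.sum_comp ev]
  have hterm : ∀ k : Fin 256,
      (if ev k ∈ (Set.univ : Set (Fin 8 → ZMod 2)) ∧ 1 ≤ wt (ev k) ∧ wt (ev k) ≤ 5 - 1 then
        (-1 : ℂ) ^ (dot (ev k) (vec w)).val else 0) =
      2 * (((if (1 ≤ wd k 0 ∧ wd k 0 ≤ 4) ∧ dp k w = 0 then 1 else 0 : ℕ)) : ℂ) -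
        (((if (1 ≤ wd k 0 ∧ wd k 0 ≤ 4) then 1 else 0 : ℕ)) : ℂ) := by
    intro k
    have h1 : wt (ev k) = wd k 0 := by
      have := wt_vec_sub k 0
      rw [vec_zero, sub_zero] at this
      exact this
    have h2 : (dot (ev k) (vec w)).val = dp k w := dot_vec k w
    rw [h1, h2]
    have h3 := dp_le k w
    by_cases hs : (1 ≤ wd k 0 ∧ wd k 0 ≤ 4)
    · have hs' : ev k ∈ (Set.univ : Set (Fin 8 → ZMod 2)) ∧ 1 ≤ wd k 0 ∧ wd k 0 ≤ 5 - 1 :=
        ⟨Set.mem_univ _, hs.1, hs.2⟩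
      rw [if_pos hs', if_pos hs]
      rcases Nat.lt_succ_iff_lt_or_eq.1 h3 with h4 | h4
      · have h5 : dp k w = 0 := by omega
        rw [if_pos ⟨hs, h5⟩, h5]
        norm_num
      · rw [if_neg (by omega), h4]
        norm_num
    · have hs' : ¬ (ev k ∈ (Set.univ : Set (Fin 8 → ZMod 2)) ∧ 1 ≤ wd k 0 ∧ wd k 0 ≤ 5 - 1) :=
        fun h => hs ⟨h.2.1, h.2.2⟩
      rw [if_neg hs', if_neg hs, if_neg (fun h => hs h.1)]
      norm_num
  have hsum : (∑ k : Fin 256, (2 * (((if (1 ≤ wd k 0 ∧ wd k 0 ≤ 4) ∧ dp k w = 0 then 1 else 0 :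
      ℕ)) : ℂ) - (((if (1 ≤ wd k 0 ∧ wd k 0 ≤ 4) then 1 else 0 : ℕ)) : ℂ))) =
      (((2 * (cntP w 256 : ℝ) - 162 : ℝ)) : ℂ) := by
    rw [Finset.sum_sub_distrib, ← Finset.mul_sum, ← Nat.cast_sum, ← Nat.cast_sum]
    rw [Fin.sum_univ_eq_sum_range
      (fun k => (if (1 ≤ wd k 0 ∧ wd k 0 ≤ 4) ∧ dp k w = 0 then 1 else 0)) 256,
      Fin.sum_univ_eq_sum_range (fun k => (if (1 ≤ wd k 0 ∧ wd k 0 ≤ 4) then 1 else 0)) 256,
      ← cntP_eq, ← cntS_eq, cntS_val]
    push_cast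
    ring
  rw [← hsum]
  apply Finset.sum_congr rfl
  intro k _
  rw [← hterm k]
  congr

lemma lam_eq' (w : ℕ) (hw : w < 256) :
    lam 5 (Set.univ : Set (Fin 8 → ZMod 2)) (vec w) = (((2 * (cntP w 256 : ℝ) - 162 : ℝ)) : ℂ) :=
  lam_eq ⟨w, hw⟩

lemma isMin : IsMinEig 5 (Set.univ : Set (Fin 8 → ZMod 2)) (-6) := by
  constructor
  · refine ⟨vec 3, ?_⟩
    rw [lam_eq' 3 (by norm_num), cntP_v]
    norm_num
  · rintro x ⟨w, hw⟩
    obtain ⟨k, rfl⟩ := ev.surjective w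
    rw [ev_apply, lam_eq] at hw
    have h1 : (2 * (cntP k 256 : ℝ) - 162 : ℝ) = x := by exact_mod_cast hw
    have h2 : (78 : ℝ) ≤ cntP k 256 := by exact_mod_cast cntP_ge k k.2
    rw [← h1]
    linarith

/-! ### Triangles -/

/-- ordered triangles through a vertex -/
noncomputable def tri {α : Type} (G : SimpleGraph α) (x : α) : ℕ :=
  Nat.card {p : α × α // G.Adj x p.1 ∧ G.Adj x p.2 ∧ G.Adj p.1 p.2}

lemma tri_iso {α β : Type} {G : SimpleGraph α} {H : SimpleGraph β} (φ : G ≃g H) (x : α) :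
    tri G x = tri H (φ x) := by
  unfold tri
  apply Nat.card_congr
  refine Equiv.subtypeEquiv (Equiv.prodCongr φ.toEquiv φ.toEquiv) ?_
  intro p
  have h1 := @SimpleGraph.Iso.map_adj_iff _ _ _ _ φ x p.1
  have h2 := @SimpleGraph.Iso.map_adj_iff _ _ _ _ φ x p.2
  have h3 := @SimpleGraph.Iso.map_adj_iff _ _ _ _ φ p.1 p.2
  exact (and_congr h1 (and_congr h2 h3)).symm

/-- counting of triangles, inner loop -/
def cntB (v a : ℕ) : ℕ → ℕ
  | 0 => 0
  | b + 1 => cntB v a b + (if dp b v = 0 ∧ (1 ≤ wd b 0 ∧ wd b 0 ≤ 4) ∧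
      (1 ≤ wd a b ∧ wd a b ≤ 4) then 1 else 0)

/-- counting of triangles, outer loop -/
def cntA (v : ℕ) : ℕ → ℕ
  | 0 => 0
  | a + 1 => cntA v a + (if dp a v = 0 ∧ (1 ≤ wd a 0 ∧ wd a 0 ≤ 4) then cntB v a 256 else 0)

lemma cntB_eq (v a k : ℕ) : cntB v a k = ∑ b ∈ range k, (if dp b v = 0 ∧
    (1 ≤ wd b 0 ∧ wd b 0 ≤ 4) ∧ (1 ≤ wd a b ∧ wd a b ≤ 4) then 1 else 0) := by
  induction k with
  | zero => rfl
  | succ k ih => rw [cntB, Finset.sum_range_succ, ih]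

lemma cntA_eq (v k : ℕ) : cntA v k = ∑ a ∈ range k, (if dp a v = 0 ∧
    (1 ≤ wd a 0 ∧ wd a 0 ≤ 4) then cntB v a 256 else 0) := by
  induction k with
  | zero => rfl
  | succ k ih => rw [cntA, Finset.sum_range_succ, ih]

lemma cntA_v : cntA 3 256 = 4116 := by decide +kernel

lemma cntA_v' : cntA 7 256 = 3996 := by decide +kernel

lemma wt_neg (u : Fin 8 → ZMod 2) : wt (-u) = wt u := by
  unfold wt
  simp

lemma tri_section (v : ℕ) (x : section' 2 8 5 0 (vec v)) :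
    tri ((gilbert 2 8 5).induce (section' 2 8 5 0 (vec v))) x = cntA v 256 := by
  classical
  unfold tri
  have hmem : ∀ u : Fin 8 → ZMod 2, u ∈ section' 2 8 5 0 (vec v) ↔ dot u (vec v) = 0 := by
    intro u
    simp [section', space]
  have hdot : ∀ a b : Fin 8 → ZMod 2, dot (a + b) (vec v) = dot a (vec v) + dot b (vec v) := by
    intro a b
    simp [dot, add_mul, Finset.sum_add_distrib]
  have hx := (hmem x).1 x.2
  have hself : ∀ a : Fin 8 → ZMod 2, -a = a := by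
    intro a
    funext i
    exact ZMod.neg_eq_self_mod_two _
  let f : {p : (Fin 256) × (Fin 256) // (dp p.1 v = 0 ∧ (1 ≤ wd p.1 0 ∧ wd p.1 0 ≤ 4)) ∧
      (dp p.2 v = 0 ∧ (1 ≤ wd p.2 0 ∧ wd p.2 0 ≤ 4) ∧ (1 ≤ wd p.1 p.2 ∧ wd p.1 p.2 ≤ 4))} →
    {p : section' 2 8 5 0 (vec v) × section' 2 8 5 0 (vec v) //
      ((gilbert 2 8 5).induce (section' 2 8 5 0 (vec v))).Adj x p.1 ∧
      ((gilbert 2 8 5).induce (section' 2 8 5 0 (vec v))).Adj x p.2 ∧
      ((gilbert 2 8 5).induce (section' 2 8 5 0 (vec v))).Adj p.1 p.2} := fun p =>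
    ⟨(⟨x.1 + vec p.1.1, by
        rw [hmem, hdot, hx, zero_add]
        have := dot_vec p.1.1 v
        rw [p.2.1.1] at this
        exact (ZMod.val_eq_zero _).1 this⟩,
      ⟨x.1 + vec p.1.2, by
        rw [hmem, hdot, hx, zero_add]
        have := dot_vec p.1.2 v
        rw [p.2.2.1] at this
        exact (ZMod.val_eq_zero _).1 this⟩), by
      have h1 := p.2.1.2
      have h2 := p.2.2.2.1
      have h3 := p.2.2.2.2
      rw [← wt_vec_sub, vec_zero, sub_zero] at h1 h2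
      rw [← wt_vec_sub] at h3
      refine ⟨?_, ?_, ?_⟩
      · show 1 ≤ wt (x.1 - (x.1 + vec p.1.1)) ∧ wt (x.1 - (x.1 + vec p.1.1)) ≤ 5 - 1
        rw [sub_add_cancel_left, wt_neg]
        exact h1
      · show 1 ≤ wt (x.1 - (x.1 + vec p.1.2)) ∧ wt (x.1 - (x.1 + vec p.1.2)) ≤ 5 - 1
        rw [sub_add_cancel_left, wt_neg]
        exact h2
      · show 1 ≤ wt ((x.1 + vec p.1.1) - (x.1 + vec p.1.2)) ∧
          wt ((x.1 + vec p.1.1) - (x.1 + vec p.1.2)) ≤ 5 - 1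
        rw [add_sub_add_left_eq_sub]
        exact h3⟩
  have hf : Function.Bijective f := by
    constructor
    · rintro ⟨⟨a, b⟩, hp⟩ ⟨⟨a', b'⟩, hp'⟩ h
      have h1 := congrArg (fun z => (z.1.1 : Fin 8 → ZMod 2)) h
      have h2 := congrArg (fun z => (z.1.2 : Fin 8 → ZMod 2)) h
      simp only [f] at h1 h2
      have h1' : vec (a : ℕ) = vec (a' : ℕ) := add_left_cancel h1
      have h2' : vec (b : ℕ) = vec (b' : ℕ) := add_left_cancel h2
      have e1 : a = a' := vec_bij.1 h1'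
      have e2 : b = b' := vec_bij.1 h2'
      subst e1; subst e2
      rfl
    · rintro ⟨⟨⟨a, ha⟩, ⟨b, hb⟩⟩, h1, h2, h3⟩
      obtain ⟨i, hi⟩ := vec_bij.2 (a - x.1)
      obtain ⟨j, hj⟩ := vec_bij.2 (b - x.1)
      have h1' : 1 ≤ wt (x.1 - a) ∧ wt (x.1 - a) ≤ 5 - 1 := h1
      have h2' : 1 ≤ wt (x.1 - b) ∧ wt (x.1 - b) ≤ 5 - 1 := h2
      have h3' : 1 ≤ wt (a - b) ∧ wt (a - b) ≤ 5 - 1 := h3
      have hi' : vec (i : ℕ) = a - x.1 := hi
      have hj' : vec (j : ℕ) = b - x.1 := hj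
      have hda : dp i v = 0 := by
        rw [← dot_vec, hi', sub_eq_add_neg, hself x.1, hdot, hx, (hmem a).1 ha]
        simp
      have hdb : dp j v = 0 := by
        rw [← dot_vec, hj', sub_eq_add_neg, hself x.1, hdot, hx, (hmem b).1 hb]
        simp
      have hwa : wd i 0 = wt (x.1 - a) := by
        rw [← wt_vec_sub, vec_zero, sub_zero, hi', ← wt_neg, neg_sub]
      have hwb : wd j 0 = wt (x.1 - b) := by
        rw [← wt_vec_sub, vec_zero, sub_zero, hj', ← wt_neg, neg_sub]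
      have hwab : wd i j = wt (a - b) := by
        rw [← wt_vec_sub, hi', hj', sub_sub_sub_cancel_right]
      refine ⟨⟨(i, j), ⟨hda, ?_⟩, hdb, ?_, ?_⟩, ?_⟩
      · show 1 ≤ wd i 0 ∧ wd i 0 ≤ 4
        rw [hwa]; exact h1'
      · show 1 ≤ wd j 0 ∧ wd j 0 ≤ 4
        rw [hwb]; exact h2'
      · show 1 ≤ wd i j ∧ wd i j ≤ 4
        rw [hwab]; exact h3'
      · apply Subtype.ext
        apply Prod.ext
        · apply Subtype.ext
          show x.1 + vec (i : ℕ) = a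
          rw [hi']; abel
        · apply Subtype.ext
          show x.1 + vec (j : ℕ) = b
          rw [hj']; abel
  rw [← Nat.card_congr (Equiv.ofBijective f hf), Nat.card_eq_fintype_card, Fintype.card_subtype,
    Finset.card_filter, ← Finset.univ_product_univ, Finset.sum_product, cntA_eq,
    ← Fin.sum_univ_eq_sum_range (fun a => (if dp a v = 0 ∧
    (1 ≤ wd a 0 ∧ wd a 0 ≤ 4) then cntB v a 256 else 0)) 256]
  apply Finset.sum_congr rfl
  intro a _
  by_cases h : dp a v = 0 ∧ (1 ≤ wd a 0 ∧ wd a 0 ≤ 4)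
  · rw [if_pos h, cntB_eq, ← Fin.sum_univ_eq_sum_range (fun b => (if dp b v = 0 ∧
    (1 ≤ wd b 0 ∧ wd b 0 ≤ 4) ∧ (1 ≤ wd a b ∧ wd a b ≤ 4) then 1 else 0)) 256]
    apply Finset.sum_congr rfl
    intro b _
    exact if_congr ⟨fun h' => h'.2, fun h' => ⟨h, h'⟩⟩ rfl rfl
  · rw [if_neg h]
    apply Finset.sum_eq_zero
    intro b _
    rw [if_neg (fun h' => h h'.1)]

lemma not_iso : IsEmpty ((gilbert 2 8 5).induce (section' 2 8 5 0 (vec 3)) ≃g
    (gilbert 2 8 5).induce (section' 2 8 5 0 (vec 7))) := by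
  constructor
  intro φ
  have h0 : (0 : Fin 8 → ZMod 2) ∈ section' 2 8 5 0 (vec 3) := by
    simp [section', space, dot]
  have h := tri_iso φ ⟨0, h0⟩
  rw [tri_section, tri_section, cntA_v, cntA_v'] at h
  omega

/-- The answer to Q1 is no: for `q = 2`, `n = 8`, `d = 5`, `t = 0` the least eigenvalue `-6` is
given by `v = (1,1,0,0,0,0,0,0)` and `v' = (1,1,1,0,0,0,0,0)`, and the sections `H_0(v)` and
`H_0(v')` are not isomorphic. -/
theorem result :
    (∃ v v' : Fin 8 → ZMod 2, v = ![1, 1, 0, 0, 0, 0, 0, 0] ∧ v' = ![1, 1, 1, 0, 0, 0, 0, 0] ∧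
      IsMinEig 5 (space 2 8 5 0) (-6) ∧
      lam 5 (space 2 8 5 0) v = ((-6 : ℝ) : ℂ) ∧ lam 5 (space 2 8 5 0) v' = ((-6 : ℝ) : ℂ) ∧
      IsEmpty ((gilbert 2 8 5).induce (section' 2 8 5 0 v) ≃g
        (gilbert 2 8 5).induce (section' 2 8 5 0 v'))) ∧
    ¬ Question := by
  have e3 : vec 3 = ![1, 1, 0, 0, 0, 0, 0, 0] := by decide
  have e7 : vec 7 = ![1, 1, 1, 0, 0, 0, 0, 0] := by decide
  have hl3 : lam 5 (space 2 8 5 0) (vec 3) = ((-6 : ℝ) : ℂ) := by
    show lam 5 (Set.univ : Set (Fin 8 → ZMod 2)) (vec 3) = _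
    rw [lam_eq' 3 (by norm_num), cntP_v]
    norm_num
  have hl7 : lam 5 (space 2 8 5 0) (vec 7) = ((-6 : ℝ) : ℂ) := by
    show lam 5 (Set.univ : Set (Fin 8 → ZMod 2)) (vec 7) = _
    rw [lam_eq' 7 (by norm_num), cntP_v']
    norm_num
  constructor
  · exact ⟨vec 3, vec 7, e3, e7, isMin, hl3, hl7, not_iso⟩
  · intro hQ
    have hedge : ∃ a b, ((gilbert 2 8 5).induce (space 2 8 5 0)).Adj a b := by
      refine ⟨⟨0, Set.mem_univ _⟩, ⟨vec 1, Set.mem_univ _⟩, ?_⟩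
      show 1 ≤ wt (0 - vec 1) ∧ wt (0 - vec 1) ≤ 5 - 1
      rw [← vec_zero, wt_vec_sub]
      decide
    obtain ⟨φ⟩ := hQ 2 Nat.prime_two 8 5 (by norm_num) (by norm_num) 0 hedge (vec 3) (vec 7)
      ⟨-6, isMin, hl3⟩ ⟨-6, isMin, hl7⟩
    exact not_iso.false φ

end Pool.Agent.Results.MP_be01c1_co.SectionsNotIsomorphic
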